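import Mathlib
import Pool.Agent.Lib.MP_e6ddea_an.Ann.Transfer

set_option autoImplicit false

open InnerProductSpace Set Filter Topology

namespace Pool.Agent.Results.MP_e6ddea_an.DoublyConnected

/-- The annulus `r < |w| < 1` (the punctured disc if `r = 0`). -/
def Annulus (r : ℝ) : Set ℂ := {w : ℂ | r < ‖w‖ ∧ ‖w‖ < 1}

/-- `D` is open and biholomorphic to an annulus `r < |w| < 1` with `0 ≤ r < 1`. -/
def DoublyConnectedGreen (D : Set ℂ) : Prop :=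
  IsOpen D ∧ ∃ r : ℝ, 0 ≤ r ∧ r < 1 ∧ ∃ φ ψ : ℂ → ℂ,
    DifferentiableOn ℂ φ (Annulus r) ∧ DifferentiableOn ℂ ψ D ∧
    MapsTo φ (Annulus r) D ∧ MapsTo ψ D (Annulus r) ∧
    (∀ w ∈ Annulus r, ψ (φ w) = w) ∧ (∀ z ∈ D, φ (ψ z) = z)

/-- Positive harmonic functions on `D`. -/
def PosHarm (D : Set ℂ) (h : ℂ → ℝ) : Prop := HarmonicOnNhd h D ∧ ∀ z ∈ D, 0 < h z

/-- The Harnack function. -/
noncomputable def harnackFunction (D : Set ℂ) (z₀ z : ℂ) : ℝ :=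
  sSup {x : ℝ | ∃ h : ℂ → ℝ, PosHarm D h ∧ h z₀ ≤ 1 ∧ h z = x}

/-- Minimal positive harmonic functions of `D` with value `1` at `z₀`. -/
def IsMinimal (D : Set ℂ) (z₀ : ℂ) (K : ℂ → ℝ) : Prop :=
  PosHarm D K ∧ K z₀ = 1 ∧
    ∀ u : ℂ → ℝ, PosHarm D u → (∀ z ∈ D, u z ≤ K z) → ∃ c : ℝ, ∀ z ∈ D, u z = c * K z

/-- `g` is the Green function of `D` with pole `z₀`. -/
def IsGreen (D : Set ℂ) (z₀ : ℂ) (g : ℂ → ℝ) : Prop :=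
  (PosHarm (D \ {z₀}) g ∧ ∃ h : ℂ → ℝ, HarmonicOnNhd h D ∧
    ∀ z ∈ D \ {z₀}, h z = g z + Real.log ‖z - z₀‖) ∧
  ∀ u : ℂ → ℝ, (PosHarm (D \ {z₀}) u ∧ ∃ h : ℂ → ℝ, HarmonicOnNhd h D ∧
    ∀ z ∈ D \ {z₀}, h z = u z + Real.log ‖z - z₀‖) → ∀ z ∈ D \ {z₀}, g z ≤ u z

/-- `γ`, parametrised by the value `s` of `g`, `s > m`, is a Green line issuing from `z₀`. -/
def IsGreenLine (D : Set ℂ) (z₀ : ℂ) (g : ℂ → ℝ) (m : ℝ) (γ : ℝ → ℂ) : Prop :=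
  (∀ s : ℝ, m < s → γ s ∈ D ∧ γ s ≠ z₀ ∧ gradient g (γ s) ≠ 0 ∧ g (γ s) = s ∧
    HasDerivAt γ ((‖gradient g (γ s)‖ ^ 2)⁻¹ • gradient g (γ s)) s) ∧
  Tendsto γ atTop (𝓝 z₀)

/-- For every doubly connected Green domain and every base point the answer is negative. -/
theorem result (D : Set ℂ) (hD : DoublyConnectedGreen D) :
    (IsOpen D ∧ IsConnected D ∧ ¬ SimplyConnectedSpace D) ∧
    ∀ z₀ ∈ D, ∃ K : ℂ → ℝ, IsMinimal D z₀ K ∧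
      (∀ᶠ z in 𝓝[≠] z₀, K z < harnackFunction D z₀ z) ∧
      ∀ (g : ℂ → ℝ) (m : ℝ) (γ : ℝ → ℂ), IsGreen D z₀ g → IsGreenLine D z₀ g m γ →
        ∃ s : ℝ, m < s ∧ K (γ s) < harnackFunction D z₀ (γ s) := by
  obtain ⟨hDo, r, hr, hr1, φ, ψ, hφ, hψ, hφD, hψA, hψφ, hφψ⟩ := hD
  refine ⟨⟨hDo, Pool.Agent.Lib.MP_e6ddea_an.Ann.isConnected_D hr hr1 hφ hφD hψA hφψ,
    Pool.Agent.Lib.MP_e6ddea_an.Ann.not_simplyConnected_D hr hr1 hDo hφ hψ hφD hψA hψφ⟩, ?_⟩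
  intro z₀ hz₀
  obtain ⟨K, k1, k2, k3, k4, k5⟩ :=
    Pool.Agent.Lib.MP_e6ddea_an.Ann.transfer hr hDo hφ hψ hφD hψA hψφ hφψ hz₀
  have key : ∀ᶠ z in 𝓝[≠] z₀, K z < harnackFunction D z₀ z := by
    filter_upwards [k5, nhdsWithin_le_nhds
      (Pool.Agent.Lib.MP_e6ddea_an.Ann.local_bound hDo hz₀)] with z hz hb
    obtain ⟨h, h1, h2, h3, h4⟩ := hz
    refine lt_of_lt_of_le h4 ?_
    apply le_csSup
    · refine ⟨3, ?_⟩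
      rintro x ⟨h', hh', hh2, rfl⟩
      exact hb h' hh'.1 hh'.2 hh2
    · exact ⟨h, ⟨h1, h2⟩, h3.le, rfl⟩
  refine ⟨K, ⟨⟨k1, k2⟩, k3, ?_⟩, key, ?_⟩
  · intro u hu hle
    exact k4 u hu.1 (fun z hz => ⟨hu.2 z hz, hle z hz⟩)
  · rintro g m γ - ⟨hγ, hlim⟩
    have h1 : Tendsto γ atTop (𝓝[≠] z₀) := by
      apply tendsto_nhdsWithin_of_tendsto_nhds_of_eventually_within
      · exact hlim
      · filter_upwards [eventually_gt_atTop m] with s hs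
        exact (hγ s hs).2.1
    obtain ⟨s, hs1, hs2⟩ := ((h1.eventually key).and (eventually_gt_atTop m)).exists
    exact ⟨s, hs2, hs1⟩

end Pool.Agent.Results.MP_e6ddea_an.DoublyConnected
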